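import Pool.Agent.Q260.GX.Spec2

/-!
# Project GX, job SUM: the hypotheses of the abstract part
-/

set_option autoImplicit false

namespace Pool.Agent.Q261.GX

open MeasureTheory Filter Topology Set Complex
open Pool.Agent.Y23 (Lg one_le_Lg)
open Pool.Agent.Q260.GM (pk sx LL kk h0 kT pk_nonneg pk_le)
open DirichletCharacter (LFunction)
open Pool.Agent.Q260.GX

variable {q : ℕ} [NeZero q]

lemma LF_an (χ : DirichletCharacter ℂ q) : AnalyticOnNhd ℂ (LFunction χ) {1}ᶜ :=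
  DifferentiableOn.analyticOnNhd
    (fun _ hz ↦ (DirichletCharacter.differentiableAt_LFunction _ _
      (Or.inl hz)).differentiableWithinAt) isOpen_compl_singleton

lemma LF_order (χ : DirichletCharacter ℂ q) {s : ℂ} (hs : s ≠ 1) :
    analyticOrderAt (LFunction χ) s ≠ ⊤ := by
  have hpre : IsPreconnected ({1}ᶜ : Set ℂ) :=
    (isConnected_compl_singleton_of_one_lt_rank (by simp) 1).isPreconnected
  have h2 : (2 : ℂ) ∈ ({1}ᶜ : Set ℂ) := by
    rw [Set.mem_compl_iff, Set.mem_singleton_iff]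
    norm_num
  refine (LF_an χ).analyticOrderAt_ne_top_of_isPreconnected hpre h2 hs ?_
  have h3 : LFunction χ 2 ≠ 0 :=
    DirichletCharacter.LFunction_ne_zero_of_one_le_re χ (Or.inr (by norm_num)) (by norm_num)
  rw [((LF_an χ) 2 h2).analyticOrderAt_eq_zero.2 h3]
  simp

lemma one_le_mu (χ : DirichletCharacter ℂ q) {s : ℂ} (hs : s ≠ 1) (h0 : LFunction χ s = 0) :
    1 ≤ analyticOrderNatAt (LFunction χ) s := by
  have h1 := LF_order χ hs
  have h2 : analyticOrderAt (LFunction χ) s ≠ 0 := ((LF_an χ) s hs).analyticOrderAt_ne_zero.2 h0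
  rw [Nat.one_le_iff_ne_zero]
  intro h3
  rw [← Nat.cast_analyticOrderNatAt h1, h3] at h2
  exact h2 rfl

lemma deriv_conj (χ : DirichletCharacter ℂ q) {s : ℂ} (hs : s ≠ 1) :
    deriv (LFunction χ) ((starRingEnd ℂ) s) = (starRingEnd ℂ) (deriv (LFunction χ⁻¹) s) := by
  have h1 : HasDerivAt (LFunction χ⁻¹) (deriv (LFunction χ⁻¹) s) s :=
    (DirichletCharacter.differentiableAt_LFunction _ _ (Or.inl hs)).hasDerivAt
  have h2 := h1.conj_conj
  have hs' : (starRingEnd ℂ) s ≠ 1 := by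
    intro h
    apply hs
    have := congrArg (starRingEnd ℂ) h
    simpa using this
  have h3 : LFunction χ =ᶠ[𝓝 ((starRingEnd ℂ) s)]
      ((starRingEnd ℂ) ∘ LFunction χ⁻¹ ∘ (starRingEnd ℂ)) := by
    filter_upwards [isOpen_compl_singleton.mem_nhds (show (starRingEnd ℂ) s ∈ ({1}ᶜ : Set ℂ) from hs')] with z hz
    have hz1 : z ≠ 1 := hz
    have hz2 : (starRingEnd ℂ) z ≠ 1 := by
      intro h
      apply hz1
      have := congrArg (starRingEnd ℂ) h
      simpa using this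
    have h4 := H370.DL.LFunction_conj (χ⁻¹) ((starRingEnd ℂ) z) hz2
    rw [inv_inv, Complex.conj_conj] at h4
    exact h4
  rw [h3.deriv_eq]
  exact h2.deriv

lemma LF_conj' (χ : DirichletCharacter ℂ q) {s : ℂ} (hs : s ≠ 1) :
    LFunction χ ((starRingEnd ℂ) s) = (starRingEnd ℂ) (LFunction χ⁻¹ s) := by
  have h4 := H370.DL.LFunction_conj (χ⁻¹) s hs
  rwa [inv_inv] at h4

lemma sx_conj (x t : ℝ) : sx x (-t) = (starRingEnd ℂ) (sx x t) := by
  unfold sx
  simp only [map_add, map_mul, Complex.conj_ofReal, Complex.conj_I]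
  push_cast
  ring

lemma sx_ne (x t : ℝ) (hx : x ≤ 1 / 4) : sx x t ≠ 1 := by
  intro h
  have := congrArg Complex.re h
  unfold sx at this
  simp at this
  linarith

variable (S : Finset (DirichletCharacter ℂ q))

lemma LD_conj (hS : InvCl S) {s : ℂ} (hs : s ≠ 1) :
    (dat S).LD ((starRingEnd ℂ) s) = (starRingEnd ℂ) ((dat S).LD s) := by
  show ∑ χ ∈ S, deriv (LFunction χ) ((starRingEnd ℂ) s) / LFunction χ ((starRingEnd ℂ) s) =
    (starRingEnd ℂ) (∑ χ ∈ S, deriv (LFunction χ) s / LFunction χ s)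
  rw [map_sum]
  refine Finset.sum_bij' (fun χ _ => χ⁻¹) (fun χ _ => χ⁻¹) (fun χ hχ => hS.2 χ hχ)
    (fun χ hχ => hS.2 χ hχ) (fun χ _ => inv_inv χ) (fun χ _ => inv_inv χ) fun χ _ => ?_
  rw [deriv_conj χ hs, LF_conj' χ hs, map_div₀]

lemma sig_summable {F : (Σ χ : {χ : DirichletCharacter ℂ q // χ ∈ S}, ZC χ.1) → ℝ}
    (hF : ∀ i, 0 ≤ F i) (h : ∀ χ : {χ : DirichletCharacter ℂ q // χ ∈ S}, Summable fun ρ : ZC χ.1 => F ⟨χ, ρ⟩) :
    Summable F :=
  (summable_sigma_of_nonneg hF).2 ⟨h, (hasSum_fintype _).summable⟩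

lemma sig_tsum {F : (Σ χ : {χ : DirichletCharacter ℂ q // χ ∈ S}, ZC χ.1) → ℝ}
    (hF : ∀ i, 0 ≤ F i) (h : ∀ χ : {χ : DirichletCharacter ℂ q // χ ∈ S}, Summable fun ρ : ZC χ.1 => F ⟨χ, ρ⟩) :
    ∑' i, F i = ∑ χ : {χ : DirichletCharacter ℂ q // χ ∈ S}, ∑' ρ : ZC χ.1, F ⟨χ, ρ⟩ := by
  rw [Summable.tsum_sigma' h (sig_summable S hF h), tsum_fintype]

lemma pk_summ {χ : DirichletCharacter ℂ q} (hχ : Chi χ) {x : ℝ} (hx : 0 < x) (h1 : x ≤ 1) (t : ℝ) :
    Summable (fun ρ : ZC χ => (analyticOrderNatAt (LFunction χ) ρ : ℝ) * pk x (t - (ρ : ℂ).im)) := by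
  refine Summable.of_nonneg_of_le (fun ρ => mul_nonneg (Nat.cast_nonneg _) (pk_nonneg hx.le _))
    (fun ρ => ?_) ((hχ.zs t).mul_left (1 / x))
  calc (analyticOrderNatAt (LFunction χ) ρ : ℝ) * pk x (t - (ρ : ℂ).im) ≤
      (analyticOrderNatAt (LFunction χ) ρ : ℝ) * (1 / x * (1 / (1 + (t - (ρ : ℂ).im) ^ 2))) :=
        mul_le_mul_of_nonneg_left (pk_le hx h1 _) (Nat.cast_nonneg _)
    _ = _ := by rw [← neg_sub t, neg_sq]; ring

lemma LD_coe (s : ℂ) : (dat S).LD s =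
    ∑ χ : {χ : DirichletCharacter ℂ q // χ ∈ S}, deriv (LFunction χ.1) s / LFunction χ.1 s :=
  (Finset.sum_coe_sort S fun χ => deriv (LFunction χ) s / LFunction χ s).symm

theorem t_SUM (h1 : S_LAPd) (h2 : S_CHI) (h3 : S_CNT) : S_SUM := by
  classical
  intro q _ S hS hG
  obtain ⟨l1, l2, l3⟩ := h1 q S hS hG
  have hchi : ∀ χ : {χ : DirichletCharacter ℂ q // χ ∈ S}, Chi χ.1 := fun χ => h2 q χ.1 (hG χ.1 χ.2)
  have hne : Nonempty {χ : DirichletCharacter ℂ q // χ ∈ S} := ⟨⟨_, hS.1.choose_spec⟩⟩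
  have hcard : Fintype.card {χ : DirichletCharacter ℂ q // χ ∈ S} = S.card := Fintype.card_coe S
  have hpos : ∀ (t : ℝ) (i : (dat S).ι), 0 ≤ ((dat S).mu i : ℝ) * (1 / (1 + ((dat S).ga i - t) ^ 2)) :=
    fun t i => by positivity
  refine
    { mu_pos := ?_
      n_pos := ?_
      m_le := ?_
      zs := ?_
      zl := ?_
      cnt := (h3 q S).2
      ldc := ?_
      ldb := ?_
      ldp := ?_
      lde := ?_
      phm := l1
      l2 := l2
      lap := l3 }
  · rintro ⟨χ, ρ, h0, hr0, hr1⟩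
    refine one_le_mu χ.1 ?_ h0
    intro h
    have h' : ρ = 1 := h
    rw [h', Complex.one_re] at hr1
    exact lt_irrefl _ hr1
  · show (1 : ℝ) ≤ (S.card : ℝ)
    exact_mod_cast Finset.card_pos.2 hS.1
  · show |∑ χ ∈ S, dl χ| ≤ 1
    have hdl1 : dl (1 : DirichletCharacter ℂ q) = 1 := by unfold dl; exact if_pos rfl
    have hdl0 : ∀ χ : DirichletCharacter ℂ q, χ ≠ 1 → dl χ = 0 := fun χ h => by
      unfold dl; exact if_neg h
    by_cases h1S : (1 : DirichletCharacter ℂ q) ∈ S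
    · rw [Finset.sum_eq_single_of_mem 1 h1S (fun b _ hb => hdl0 b hb), hdl1, abs_one]
    · rw [Finset.sum_eq_zero fun b hb => hdl0 b (fun h' => h1S (h' ▸ hb)), abs_zero]
      exact zero_le_one
  · intro t
    exact sig_summable S (hpos t) fun χ => (hchi χ).zs t
  · choose K hK0 hK using fun χ : {χ : DirichletCharacter ℂ q // χ ∈ S} => (hchi χ).zl
    refine ⟨∑ χ, K χ, Finset.sum_pos (fun χ _ => hK0 χ) Finset.univ_nonempty, fun t => ?_⟩
    rw [Finset.sum_mul]
    refine (sig_tsum S (hpos t) fun χ => (hchi χ).zs t).le.trans ?_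
    exact Finset.sum_le_sum fun χ _ => hK χ t
  · intro x hx hx4
    simp_rw [LD_coe]
    exact continuous_finsetSum _ fun χ _ => (hchi χ).ldc x hx hx4
  · choose C hC0 hC using fun χ : {χ : DirichletCharacter ℂ q // χ ∈ S} => (hchi χ).ldb
    refine ⟨∑ χ, C χ, Finset.sum_pos (fun χ _ => hC0 χ) Finset.univ_nonempty, fun x hx hx4 t => ?_⟩
    rw [LD_coe]
    refine (norm_sum_le _ _).trans ?_
    rw [Finset.sum_mul, Finset.sum_div]
    exact Finset.sum_le_sum fun χ _ => hC χ x hx hx4 t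
  · choose A hA1 hA using fun χ : {χ : DirichletCharacter ℂ q // χ ∈ S} => (hchi χ).ldp
    refine ⟨∑ χ, A χ, ?_, fun x hx hx4 t ht => ?_⟩
    · obtain ⟨χ0⟩ := hne
      refine (hA1 χ0).trans (Finset.single_le_sum (f := A) (fun χ _ => ?_) (Finset.mem_univ χ0))
      have := hA1 χ
      linarith
    · have e1 : (dat S).DD x t = ∑ χ : {χ : DirichletCharacter ℂ q // χ ∈ S},
          -(deriv (LFunction χ.1) (sx x t) / LFunction χ.1 (sx x t)).re := by
        unfold Dat.DD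
        rw [LD_coe, Complex.re_sum, Finset.sum_neg_distrib]
      have e2 : (dat S).Pz x t = ∑ χ : {χ : DirichletCharacter ℂ q // χ ∈ S},
          ∑' ρ : ZC χ.1, (analyticOrderNatAt (LFunction χ.1) ρ : ℝ) * pk x (t - (ρ : ℂ).im) := by
        unfold Dat.Pz
        exact sig_tsum S (F := fun i => ((dat S).mu i : ℝ) * pk x (t - (dat S).ga i))
          (fun i => mul_nonneg (Nat.cast_nonneg _) (pk_nonneg hx.le _))
          fun χ => pk_summ (hchi χ) hx (by linarith) t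
      have e3 : (dat S).n * Real.log |t| / 2 =
          ∑ _χ : {χ : DirichletCharacter ℂ q // χ ∈ S}, Real.log |t| / 2 := by
        rw [Finset.sum_const, Finset.card_univ, hcard, nsmul_eq_mul]
        show (S.card : ℝ) * Real.log |t| / 2 = _
        ring
      rw [e1, e2, e3, ← Finset.sum_sub_distrib, ← Finset.sum_sub_distrib]
      refine (Finset.abs_sum_le_sum_abs _ _).trans ?_
      exact Finset.sum_le_sum fun χ _ => hA χ x hx hx4 t ht
  · intro x t hx hx4
    unfold Dat.DD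
    rw [sx_conj, LD_conj S hS (sx_ne x t hx4), Complex.conj_re]

end Pool.Agent.Q261.GX
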